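import Pool.Agent.H918.H.Defs

set_option autoImplicit false

/-!
# PROJECT AH: loc_sec (by helper348)
-/

open Polynomial FF Pool.Agent.W603.LV Pool.Agent.W603.PV
open Filter Topology Metric
open Pool.Agent.H918.PF
open scoped Polynomial.Bivariate LinearAlgebra.Projectivization

namespace Pool.Agent.H918.AH

variable {L : Type} [Field L] [Algebra ℂ L] {Λ : PeriodPair} {a b : L} {D : Derivation ℂ L L}
  {ev : ℂ[X][Y] →ₐ[ℂ] L} {P : ℂ[X][Y]} {B₀ : Finset ℂ}

namespace H348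

theorem ev_CC (ev : ℂ[X][Y] →ₐ[ℂ] L) (c : ℂ) : ev (C (C c)) = algebraMap ℂ L c :=
  ev.commutes c

theorem germ_C {Q : Place ℂ L} {e : ℕ} {σ : L → ℂ → ℂ} (hσ : Germ Q e σ)
    (hc : ev (C X) = a) (S : ℂ[X]) :
    ∀ᶠ v in 𝓝[≠] (0 : ℂ), σ (ev (C S)) v = S.eval (σ a v) := by
  induction S using Polynomial.induction_on with
  | C c =>
    rw [ev_CC]
    filter_upwards [hσ.const c] with v hv
    rw [hv, eval_C]
  | add p q hp hq =>
    filter_upwards [hp, hq, hσ.add (ev (C p)) (ev (C q))] with v h1 h2 h3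
    rw [C_add, map_add, h3, h1, h2, eval_add]
  | monomial n c h =>
    filter_upwards [h, hσ.mul (ev (C (C c * X ^ n))) (ev (C X))] with v h1 h2
    rw [pow_succ, ← mul_assoc, C_mul (a := C c * X ^ n), map_mul, h2, h1, hc, eval_mul (q := X),
      eval_X]

theorem germ_R {Q : Place ℂ L} {e : ℕ} {σ : L → ℂ → ℂ} (hσ : Germ Q e σ)
    (hc : ev (C X) = a) (R : ℂ[X][Y]) :
    ∀ᶠ v in 𝓝[≠] (0 : ℂ), σ (ev R) v = evalEval (σ a v) (σ (ev X) v) R := by
  induction R using Polynomial.induction_on with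
  | C c =>
    filter_upwards [germ_C hσ hc c] with v hv
    rw [hv, evalEval_C]
  | add p q hp hq =>
    filter_upwards [hp, hq, hσ.add (ev p) (ev q)] with v h1 h2 h3
    rw [map_add, h3, h1, h2, evalEval_add]
  | monomial n c h =>
    filter_upwards [h, hσ.mul (ev (C c * X ^ n)) (ev X)] with v h1 h2
    rw [pow_succ, ← mul_assoc, map_mul, h2, h1, evalEval_mul (q := X), evalEval_X]

theorem ev_C_ne (hM : PM a ev P) {S : ℂ[X]} (hS : S ≠ 0) : ev (C S) ≠ 0 := by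
  intro h
  have h1 := (hM.ker (C S)).1 h
  have h2 : (C S : ℂ[X][Y]) ≠ 0 := fun h => hS (C_eq_zero.1 h)
  have h3 := Polynomial.natDegree_le_of_dvd h1 h2
  rw [natDegree_C] at h3
  have := hM.pos
  omega

end H348

open H348 in
theorem loc_sec [IsFF ℂ L] (hM : PM a ev P) (hs : SepOff P B₀) {Q : Place ℂ L} {s : ℂ}
    (hsB : s ∈ Bad Λ B₀) (hG : Good Λ a b Q s) (hch : ∀ u : L, Q.ord u = 1 → ∃ σ : L → ℂ → ℂ, Chart Q u σ) :
    ∃ (ε : ℝ) (q : ℂ → ℂ), 0 < ε ∧ Sec Λ P B₀ (ball s ε) q ∧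
      (∀ (h : L) (R : ℂ[X][Y]) (S : ℂ[X]), h ≠ 0 → S ≠ 0 → h * ev (C S) = ev R →
        meromorphicOrderAt (fun t => evalEval (Λ.weierstrassP t) (q t) R /
          S.eval (Λ.weierstrassP t)) s = (Q.ord h : WithTop ℤ)) ∧
      ∀ (R : ℂ[X][Y]) (S : ℂ[X]), b * ev (C S) = ev R → ∀ᶠ t in 𝓝[≠] s,
        S.eval (Λ.weierstrassP t) * Λ.derivWeierstrassP t =
          evalEval (Λ.weierstrassP t) (q t) R := by
  obtain ⟨u, φ, hu, hφ, hφ0, hφ1, hgood⟩ := hG
  obtain ⟨σ, hσ⟩ := hch u hu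
  have hab := hgood σ hσ
  have htend : Tendsto φ (𝓝[≠] s) (𝓝[≠] 0) := by
    have h1 := hφ.differentiableAt.hasDerivAt.tendsto_nhdsNE hφ1
    rw [hφ0] at h1
    exact h1
  have hC : ∀ S : ℂ[X], ∀ᶠ t in 𝓝[≠] s, σ (ev (C S)) (φ t) = S.eval (Λ.weierstrassP t) := by
    intro S
    filter_upwards [htend.eventually (germ_C hσ.toGerm hM.coord S), hab] with t h1 h2
    rw [h1, h2.1]
  have hR : ∀ R : ℂ[X][Y], ∀ᶠ t in 𝓝[≠] s,
      σ (ev R) (φ t) = evalEval (Λ.weierstrassP t) (σ (ev X) (φ t)) R := by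
    intro R
    filter_upwards [htend.eventually (germ_R hσ.toGerm hM.coord R), hab] with t h1 h2
    rw [h1, h2.1]
  have hP : ∀ᶠ t in 𝓝[≠] s, evalEval (Λ.weierstrassP t) (σ (ev X) (φ t)) P = 0 := by
    have h0 : ev P = algebraMap ℂ L 0 := by
      rw [map_zero]
      exact (hM.ker P).2 dvd_rfl
    filter_upwards [hR P, htend.eventually (hσ.const 0)] with t h1 h2
    rw [← h1, h0, h2]
  have hmer : MeromorphicAt (fun t => σ (ev X) (φ t)) s := by
    have h1 : MeromorphicAt (σ (ev X)) (φ s) := by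
      rw [hφ0]
      exact hσ.mer _
    exact h1.comp_analyticAt hφ
  have hev := hmer.eventually_analyticAt.and hP
  rw [eventually_nhdsWithin_iff, Metric.eventually_nhds_iff_ball] at hev
  obtain ⟨ε, hε, hball⟩ := hev
  refine ⟨ε, fun t => σ (ev X) (φ t), hε, ?_, ?_, ?_⟩
  · intro t ht hbad
    have hne : t ≠ s := fun h => hbad (h ▸ hsB)
    exact hball t ht hne
  · intro h R S hh hS hhR
    have hne : ∀ᶠ v in 𝓝[≠] (0 : ℂ), σ (ev (C S)) v ≠ 0 := by
      rw [← meromorphicOrderAt_ne_top_iff_eventually_ne_zero (hσ.mer _), hσ.ord _ (ev_C_ne hM hS)]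
      exact WithTop.coe_ne_top
    have hcongr : (fun t => evalEval (Λ.weierstrassP t) (σ (ev X) (φ t)) R /
        S.eval (Λ.weierstrassP t)) =ᶠ[𝓝[≠] s] (σ h ∘ φ) := by
      filter_upwards [hR R, hC S, htend.eventually hne,
        htend.eventually (hσ.mul h (ev (C S)))] with t h1 h2 h3 h4
      rw [← h1, ← h2, ← hhR, h4, mul_div_cancel_right₀ _ h3]
      rfl
    rw [meromorphicOrderAt_congr hcongr]
    have h5 : meromorphicOrderAt (σ h ∘ φ) s = meromorphicOrderAt (σ h) (φ s) :=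
      meromorphicOrderAt_comp_of_deriv_ne_zero hφ hφ1
    rw [h5, hφ0, hσ.ord h hh, Nat.cast_one, one_mul]
  · intro R S hRS
    filter_upwards [hR R, hC S, hab, htend.eventually (hσ.mul b (ev (C S)))] with t h1 h2 h3 h4
    rw [← h1, ← hRS, h4, h2, h3.2, mul_comm]

end Pool.Agent.H918.AH
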