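import Pool.Agent.H85.AK.Stmt4
import Pool.Agent.H772.AKBox

/-!
Proof of `S_kbox` (exceptional slopes in a box) from four named hypotheses.
-/

set_option autoImplicit false

namespace Pool.Agent.H85.AK.K348

open scoped Pointwise
open Finset Stmt3
open Pool.Agent.H85.AK
open Pool.Agent.H85.AK.Box772

theorem shift_mem {k : ℕ} (g : Fin k → ℂ) (D n m : ℕ) (hD : 1 ≤ D) (b : Fin k → ℕ)
    (hb : ∀ i, b i ≤ m) (z : ℂ) (hz : z ∈ dg g D n) :
    (∏ i, g i ^ b i) * z ∈ dg g D (n + m) := by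
  classical
  rw [mem_dg] at hz
  obtain ⟨d, rfl⟩ := hz
  rw [mem_dg]
  let e : (Fin k → Fin n) → (Fin k → Fin (n + m)) := fun a i =>
    ⟨(a i : ℕ) + b i, Nat.add_lt_add_of_lt_of_le (a i).2 (hb i)⟩
  have he : Function.Injective e := by
    intro a a' h
    funext i
    have h1 := congrFun h i
    have h2 := congrArg Fin.val h1
    have h3 : (a i : ℕ) + b i = (a' i : ℕ) + b i := h2
    exact Fin.ext (by omega)
  let d' : (Fin k → Fin (n + m)) → Fin D := fun a' =>
    if h : ∃ a, e a = a' then d h.choose else ⟨0, hD⟩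
  have hd' : ∀ a, d' (e a) = d a := by
    intro a
    have h : ∃ a₀, e a₀ = e a := ⟨a, rfl⟩
    simp only [d', dif_pos h]
    rw [he h.choose_spec]
  refine ⟨d', ?_⟩
  symm
  rw [Finset.mul_sum]
  apply Fintype.sum_of_injective e he
  · intro a' ha'
    have h : ¬ ∃ a, e a = a' := fun ⟨a, ha⟩ => ha' ⟨a, ha⟩
    simp only [d', dif_neg h, Nat.cast_zero, zero_mul]
  · intro a
    rw [hd']
    have h1 : ∏ i, g i ^ ((e a i : Fin (n + m)) : ℕ) =
        (∏ i, g i ^ (a i : ℕ)) * ∏ i, g i ^ b i := by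
      rw [← Finset.prod_mul_distrib]
      apply Finset.prod_congr rfl
      intro i _
      rw [← pow_add]
    rw [h1]
    ring

theorem s_kbox (h1 : Stmt3.S_up) (h2 : Stmt3.S_low) (h3 : Stmt3.S_pigeon)
    (h5 : Stmt.S_growth) : Stmt4.S_kbox := by
  intro k g hg halg ⟨j, hj⟩ ε hε
  obtain ⟨C, hC, hup⟩ := h1 k g halg
  obtain ⟨c, hc, hlow⟩ := h2 k g j (h5 (g j) (hg j) hj)
  have hη : 0 < min (2 * ε) 1 := lt_min (by linarith) one_pos
  obtain ⟨K0, hK0⟩ := h3 (fun κ n => Real.log ((dg g (2 ^ κ) n).card : ℝ)) c C (min (2 * ε) 1) hc hη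
    (min_le_right _ _) (by
      intro κ n hκ hn
      have h2κ : 2 ≤ 2 ^ κ := by
        calc 2 = 2 ^ 1 := rfl
          _ ≤ 2 ^ κ := Nat.pow_le_pow_right (by norm_num) hκ
      refine ⟨hlow _ _ h2κ hn, (hup _ _ (by omega) hn).trans ?_⟩
      apply mul_le_mul_of_nonneg_left _ hC.le
      rw [Nat.cast_pow, Real.log_pow, Nat.cast_ofNat]
      have hl : Real.log 2 ≤ 1 := by
        have := Real.log_two_lt_d9
        linarith
      have hκ' : (0 : ℝ) ≤ κ := Nat.cast_nonneg _
      nlinarith)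
  set η := min (2 * ε) 1 with hηdef
  have hK0' : (0 : ℝ) ≤ K0 := Nat.cast_nonneg _
  refine ⟨η / (8 * C * (1 + K0)), by positivity, ?_⟩
  intro N
  obtain ⟨κ, n, m, hκ1, hκK, hNn, hm1, hmn, hηm, hu⟩ := hK0 (⌈(N : ℝ) / c⌉₊ + 1)
  have hn1 : 1 ≤ n := by omega
  have h2κ : 2 ≤ 2 ^ κ := by
    calc 2 = 2 ^ 1 := rfl
      _ ≤ 2 ^ κ := Nat.pow_le_pow_right (by norm_num) hκ1
  have hn0 : (1 : ℝ) ≤ n := by exact_mod_cast hn1
  set D := dg g (2 ^ κ) n with hDdef
  have hne : D.Nonempty := by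
    refine ⟨0, ?_⟩
    rw [hDdef, mem_dg]
    refine ⟨fun _ => ⟨0, by omega⟩, ?_⟩
    simp
  have hD1 : 1 ≤ D.card := hne.card_pos
  have hD1' : (1 : ℝ) ≤ D.card := by exact_mod_cast hD1
  have hD0 : (0 : ℝ) < D.card := by linarith
  have hcE : (D ×ˢ D).card = D.card * D.card := Finset.card_product _ _
  refine ⟨D ×ˢ D, ?_, ?_⟩
  · have h6 := hlow _ n h2κ hn1
    have h7 : c * n < D.card := by
      have := Real.add_one_le_exp (c * (n : ℝ))
      have h8 : Real.exp (c * n) ≤ D.card := by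
        rw [← Real.exp_log hD0]
        exact Real.exp_le_exp.2 h6
      linarith
    have h9 : (N : ℝ) / c ≤ n := by
      have h10 := Nat.le_ceil ((N : ℝ) / c)
      have h11 : ((⌈(N : ℝ) / c⌉₊ : ℕ) : ℝ) ≤ n := by
        exact_mod_cast (show ⌈(N : ℝ) / c⌉₊ ≤ n by omega)
      linarith
    rw [div_le_iff₀ hc] at h9
    have h12 : (N : ℝ) ≤ D.card := by
      have : (n : ℝ) * c = c * n := mul_comm _ _
      linarith
    have h13 : N ≤ D.card := by exact_mod_cast h12
    rw [hcE]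
    exact h13.trans (Nat.le_mul_of_pos_right _ hD1)
  · intro a ha
    have hlogE : Real.log ((D ×ˢ D).card : ℝ) = 2 * Real.log (D.card : ℝ) := by
      rw [hcE, Nat.cast_mul, Real.log_mul (ne_of_gt hD0) (ne_of_gt hD0)]
      ring
    have hlogD : Real.log (D.card : ℝ) ≤ C * (1 + K0) * n := by
      have h15 := hup (2 ^ κ) n (by omega) hn1
      rw [Nat.cast_pow, Real.log_pow, Nat.cast_ofNat] at h15
      have hl : Real.log 2 ≤ 1 := by
        have := Real.log_two_lt_d9
        linarith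
      have hκ' : (0 : ℝ) ≤ κ := Nat.cast_nonneg _
      have hκ2 : (κ : ℝ) ≤ K0 := by exact_mod_cast hκK
      have h16 : (n : ℝ) + κ * Real.log 2 ≤ (1 + K0) * n := by
        have h17 : (κ : ℝ) * Real.log 2 ≤ K0 := by nlinarith
        have h18 : (K0 : ℝ) ≤ K0 * n := by nlinarith
        linarith
      have h19 := mul_le_mul_of_nonneg_left h16 hC.le
      linarith
    have ham : ∀ i, a i ≤ m := by
      intro i
      have h20 := ha i
      rw [hlogE] at h20
      have h21 : η / (8 * C * (1 + K0)) * (2 * Real.log D.card) ≤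
          η / (8 * C * (1 + K0)) * (2 * (C * (1 + K0) * n)) :=
        mul_le_mul_of_nonneg_left (by linarith) (by positivity)
      have h22 : η / (8 * C * (1 + K0)) * (2 * (C * (1 + K0) * n)) = η / 4 * n := by
        field_simp
        ring
      have h23 : (a i : ℝ) ≤ m := by linarith
      exact_mod_cast h23
    have hsub : ((D ×ˢ D).image fun e => e.1 + (∏ i, g i ^ a i) * e.2) ⊆
        dg g (2 ^ (κ + 1)) (n + m) := by
      intro x hx
      rw [Finset.mem_image] at hx
      obtain ⟨e, he, rfl⟩ := hx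
      rw [Finset.mem_product] at he
      rw [pow_succ]
      apply dg_add_subset g
      apply Finset.add_mem_add
      · have h24 := shift_mem g (2 ^ κ) n m (by omega) (fun _ => 0) (fun _ => Nat.zero_le _) e.1 he.1
        simpa only [pow_zero, Finset.prod_const_one, one_mul] using h24
      · exact shift_mem g (2 ^ κ) n m (by omega) a ham e.2 he.2
    have hcle : (((D ×ˢ D).image fun e => e.1 + (∏ i, g i ^ a i) * e.2).card : ℝ) ≤
        (dg g (2 ^ (κ + 1)) (n + m)).card := by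
      exact_mod_cast Finset.card_le_card hsub
    have hpos : (0 : ℝ) < (dg g (2 ^ (κ + 1)) (n + m)).card := by
      have h25 : 0 < ((D ×ˢ D).image fun e => e.1 + (∏ i, g i ^ a i) * e.2).card := by
        rw [Finset.card_pos]
        exact (hne.product hne).image _
      have h26 : (0 : ℝ) < ((D ×ˢ D).image fun e => e.1 + (∏ i, g i ^ a i) * e.2).card := by
        exact_mod_cast h25
      linarith
    calc (((D ×ˢ D).image fun e => e.1 + (∏ i, g i ^ a i) * e.2).card : ℝ)
        ≤ (dg g (2 ^ (κ + 1)) (n + m)).card := hcle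
      _ = Real.exp (Real.log ((dg g (2 ^ (κ + 1)) (n + m)).card : ℝ)) := (Real.exp_log hpos).symm
      _ ≤ Real.exp ((1 + η) * Real.log (D.card : ℝ)) := Real.exp_le_exp.2 hu
      _ = (D.card : ℝ) ^ (1 + η) := by
        rw [Real.rpow_def_of_pos hD0, mul_comm]
      _ ≤ (D.card : ℝ) ^ (1 + 2 * ε) := by
        apply Real.rpow_le_rpow_of_exponent_le hD1'
        have := min_le_left (2 * ε) 1
        linarith
      _ = ((D ×ˢ D).card : ℝ) ^ (1 / 2 + ε) := by
        rw [hcE, Nat.cast_mul, Real.mul_rpow hD0.le hD0.le, ← Real.rpow_add hD0]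
        congr 1
        ring

end Pool.Agent.H85.AK.K348
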