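import Pool.Agent.H683.SC.Stm

set_option autoImplicit false

/-!
# The expression of a program is correct (by helper348)
-/

namespace Pool.Agent.NPC.H348

open Turing Pool.Agent.NPC Pool.Agent.H633R2 Pool.Agent.H683.MC Pool.Agent.H683.SC

/-- the invariant -/
structure Inv (k : ℕ) (crt : List ℕ) (s : ℕ × List (ℕ × ℕ) × List (ℕ × ℕ)) (t : KExp) :
    Prop where
  ok : t.Ok (k + 2)
  len : t.labs.length = s.1
  lt : ∀ b ∈ crt, b < k
  lab : ∀ b ∈ crt, ∀ v : ℕ, t.labs[v]? = some b ↔ v = look s.2.1 b
  nok : ∀ v : ℕ, t.labs[v]? ≠ some k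
  edge : ∀ u v : ℕ, (u, v) ∈ s.2.2 → u < s.1 ∧ v < s.1 ∧ u ≠ v
  adj : ∀ u v : ℕ, u < s.1 → v < s.1 → (t.Adj u v ↔ (u, v) ∈ s.2.2 ∨ (v, u) ∈ s.2.2)

theorem look_cons_self (L : List (ℕ × ℕ)) (a n : ℕ) : look ((a, n) :: L) a = n := by
  unfold look
  simp

theorem look_cons_ne (L : List (ℕ × ℕ)) {a b : ℕ} (n : ℕ) (h : a ≠ b) :
    look ((a, n) :: L) b = look L b := by
  unfold look
  rw [List.find?_cons_of_neg]
  simpa using h

theorem look_lt {k : ℕ} {crt : List ℕ} {s : ℕ × List (ℕ × ℕ) × List (ℕ × ℕ)} {t : KExp}
    (h : Inv k crt s t) {b : ℕ} (hb : b ∈ crt) : look s.2.1 b < s.1 := by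
  have h1 := (h.lab b hb (look s.2.1 b)).2 rfl
  have h2 := (List.getElem?_eq_some_iff.1 h1).1
  rw [h.len] at h2
  exact h2

theorem step_none {k : ℕ} {crt : List ℕ} {s : ℕ × List (ℕ × ℕ) × List (ℕ × ℕ)} {t : KExp}
    (h : Inv k crt s t) {a : ℕ} (ha : a < k) :
    Inv k (a :: crt) (stp s (a, none)) (stE k t (a, none)) := by
  have hs : stp s (a, none) = (s.1 + 1, (a, s.1) :: s.2.1, s.2.2) := rfl
  have ht : stE k t (a, none) = KExp.union (KExp.relab a (k + 1) t) (KExp.vtx a) := rfl
  rw [hs, ht]
  have hlabs : (KExp.union (KExp.relab a (k + 1) t) (KExp.vtx a)).labs =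
      (t.labs.map fun c => if c = a then k + 1 else c) ++ [a] := rfl
  have hlen1 : (t.labs.map fun c => if c = a then k + 1 else c).length = s.1 := by
    rw [List.length_map, h.len]
  refine ⟨?_, ?_, ?_, ?_, ?_, ?_, ?_⟩
  · exact ⟨⟨by omega, by omega, h.ok⟩, (by omega : a < k + 2)⟩
  · rw [hlabs, List.length_append, hlen1]
    rfl
  · intro b hb
    rcases List.mem_cons.1 hb with h1 | h1
    · omega
    · exact h.lt b h1
  · intro b hb v
    rw [hlabs]
    show _ ↔ v = look ((a, s.1) :: s.2.1) b
    rcases Nat.lt_or_ge v s.1 with hv | hv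
    · rw [List.getElem?_append_left (by rw [hlen1]; exact hv), List.getElem?_map]
      by_cases hba : b = a
      · subst hba
        rw [look_cons_self]
        constructor
        · intro h2
          exfalso
          cases hc : t.labs[v]? with
          | none => rw [hc] at h2; simp at h2
          | some c =>
            rw [hc] at h2
            simp only [Option.map_some, Option.some.injEq] at h2
            split_ifs at h2 with h3
            · omega
            · exact h3 h2
        · intro h2
          omega
      · have hb2 : b ∈ crt := by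
          rcases List.mem_cons.1 hb with h1 | h1
          · exact absurd h1 hba
          · exact h1
        rw [look_cons_ne _ _ (fun h => hba h.symm), ← h.lab b hb2 v]
        have hbk := h.lt b hb2
        cases hc : t.labs[v]? with
        | none => simp
        | some c =>
          simp only [Option.map_some, Option.some.injEq]
          split_ifs with h3
          · constructor
            · intro h4
              omega
            · intro h4
              exact absurd (h4.symm.trans h3) hba
          · exact Iff.rfl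
    · rcases Nat.eq_or_lt_of_le hv with hv2 | hv2
      · subst hv2
        have e : ((t.labs.map fun c => if c = a then k + 1 else c) ++ [a])[s.1]? = some a := by
          rw [List.getElem?_append_right (by rw [hlen1]), hlen1, Nat.sub_self]
          rfl
        rw [e]
        by_cases hba : b = a
        · subst hba
          rw [look_cons_self]
          simp
        · have hb2 : b ∈ crt := by
            rcases List.mem_cons.1 hb with h1 | h1
            · exact absurd h1 hba
            · exact h1
          rw [look_cons_ne _ _ (fun h => hba h.symm)]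
          have h4 := look_lt h hb2
          constructor
          · intro h5
            exact absurd (Option.some.inj h5).symm hba
          · intro h5
            omega
      · have e : ((t.labs.map fun c => if c = a then k + 1 else c) ++ [a])[v]? = none := by
          apply List.getElem?_eq_none
          rw [List.length_append, hlen1]
          simp only [List.length_cons, List.length_nil]
          omega
        rw [e]
        constructor
        · intro h5
          simp at h5
        · intro h5
          exfalso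
          by_cases hba : b = a
          · subst hba
            rw [look_cons_self] at h5
            omega
          · have hb2 : b ∈ crt := by
              rcases List.mem_cons.1 hb with h1 | h1
              · exact absurd h1 hba
              · exact h1
            rw [look_cons_ne _ _ (fun h => hba h.symm)] at h5
            have h4 := look_lt h hb2
            omega
  · intro v hv
    rw [hlabs] at hv
    have hmem := List.mem_of_getElem? hv
    rw [List.mem_append, List.mem_map, List.mem_singleton] at hmem
    rcases hmem with ⟨c, hc, h1⟩ | h1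
    · split_ifs at h1 with h3
      · omega
      · obtain ⟨i, hi⟩ := List.mem_iff_getElem?.1 hc
        exact h.nok i (by rw [hi, h1])
    · omega
  · intro u v huv
    obtain ⟨h1, h2, h3⟩ := h.edge u v huv
    exact ⟨by show u < s.1 + 1; omega, by show v < s.1 + 1; omega, h3⟩
  · intro u v hu hv
    have hu' : u < s.1 + 1 := hu
    have hv' : v < s.1 + 1 := hv
    show ((u < (t.labs.map fun c => if c = a then k + 1 else c).length ∧
      v < (t.labs.map fun c => if c = a then k + 1 else c).length ∧ t.Adj u v) ∨
      ((t.labs.map fun c => if c = a then k + 1 else c).length ≤ u ∧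
      (t.labs.map fun c => if c = a then k + 1 else c).length ≤ v ∧ False)) ↔
      (u, v) ∈ s.2.2 ∨ (v, u) ∈ s.2.2
    rw [hlen1]
    constructor
    · rintro (⟨h1, h2, h3⟩ | ⟨_, _, h3⟩)
      · exact (h.adj u v h1 h2).1 h3
      · exact h3.elim
    · intro h1
      have h2 : u < s.1 ∧ v < s.1 := by
        rcases h1 with h1 | h1
        · exact ⟨(h.edge _ _ h1).1, (h.edge _ _ h1).2.1⟩
        · exact ⟨(h.edge _ _ h1).2.1, (h.edge _ _ h1).1⟩
      exact Or.inl ⟨h2.1, h2.2, (h.adj u v h2.1 h2.2).2 h1⟩

theorem labs_app {k : ℕ} {crt : List ℕ} {s : ℕ × List (ℕ × ℕ) × List (ℕ × ℕ)} {t : KExp}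
    (h : Inv k crt s t) {b : ℕ} (hb : b ∈ crt) (v : ℕ) :
    (t.labs ++ [k])[v]? = some b ↔ v = look s.2.1 b := by
  have hbk := h.lt b hb
  rcases Nat.lt_or_ge v s.1 with hv | hv
  · rw [List.getElem?_append_left (by rw [h.len]; exact hv)]
    exact h.lab b hb v
  · have h4 := look_lt h hb
    constructor
    · intro h5
      rw [List.getElem?_append_right (by rw [h.len]; exact hv)] at h5
      have h6 := List.mem_of_getElem? h5
      rw [List.mem_singleton] at h6
      omega
    · intro h5
      omega

theorem labs_k {k : ℕ} {crt : List ℕ} {s : ℕ × List (ℕ × ℕ) × List (ℕ × ℕ)} {t : KExp}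
    (h : Inv k crt s t) (v : ℕ) : (t.labs ++ [k])[v]? = some k ↔ v = s.1 := by
  rcases Nat.lt_or_ge v s.1 with hv | hv
  · rw [List.getElem?_append_left (by rw [h.len]; exact hv)]
    constructor
    · intro h5
      exact absurd h5 (h.nok v)
    · intro h5
      omega
  · rw [List.getElem?_append_right (by rw [h.len]; exact hv), h.len]
    constructor
    · intro h5
      have h6 := (List.getElem?_eq_some_iff.1 h5).1
      simp only [List.length_cons, List.length_nil] at h6
      omega
    · intro h5
      rw [h5, Nat.sub_self]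
      rfl

theorem step_some {k : ℕ} {crt : List ℕ} {s : ℕ × List (ℕ × ℕ) × List (ℕ × ℕ)} {t : KExp}
    (h : Inv k crt s t) {a b : ℕ} (ha : a ∈ crt) (hb : b ∈ crt) :
    Inv k crt (stp s (a, some b)) (stE k t (a, some b)) := by
  have hs : stp s (a, some b) =
      (s.1 + 1, s.2.1, (s.1, look s.2.1 a) :: (s.1, look s.2.1 b) :: s.2.2) := rfl
  have ht : stE k t (a, some b) = KExp.relab k (k + 1) (KExp.join k b (KExp.join k a
      (KExp.union t (KExp.vtx k)))) := rfl
  rw [hs, ht]
  have hak := h.lt a ha
  have hbk := h.lt b hb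
  have hla := look_lt h ha
  have hlb := look_lt h hb
  have hlabs : (KExp.relab k (k + 1) (KExp.join k b (KExp.join k a
      (KExp.union t (KExp.vtx k))))).labs =
      ((t.labs ++ [k]).map fun c => if c = k then k + 1 else c) := rfl
  refine ⟨?_, ?_, h.lt, ?_, ?_, ?_, ?_⟩
  · exact ⟨by omega, by omega, by omega, by omega, by omega, by omega, by omega, by omega,
      h.ok, (by omega : k < k + 2)⟩
  · rw [hlabs, List.length_map, List.length_append, h.len]
    rfl
  · intro c hc v
    have hck := h.lt c hc
    rw [hlabs, List.getElem?_map]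
    show _ ↔ v = look s.2.1 c
    rw [← labs_app h hc v]
    cases hd : (t.labs ++ [k])[v]? with
    | none => simp
    | some d =>
      simp only [Option.map_some, Option.some.injEq]
      split_ifs with h3
      · constructor
        · intro h4
          omega
        · intro h4
          omega
      · exact Iff.rfl
  · intro v hv
    rw [hlabs] at hv
    have hmem := List.mem_of_getElem? hv
    rw [List.mem_map] at hmem
    obtain ⟨c, _, h1⟩ := hmem
    split_ifs at h1 with h3
    · omega
    · exact h3 h1
  · intro u v huv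
    show u < s.1 + 1 ∧ v < s.1 + 1 ∧ u ≠ v
    have huv' : (u, v) ∈ (s.1, look s.2.1 a) :: (s.1, look s.2.1 b) :: s.2.2 := huv
    rw [List.mem_cons, List.mem_cons, Prod.mk.injEq, Prod.mk.injEq] at huv'
    rcases huv' with ⟨h1, h2⟩ | ⟨h1, h2⟩ | h1
    · omega
    · omega
    · obtain ⟨h2, h3, h4⟩ := h.edge u v h1
      omega
  · intro u v hu hv
    have hu' : u < s.1 + 1 := hu
    have hv' : v < s.1 + 1 := hv
    have hunion : ∀ x y, (KExp.union t (KExp.vtx k)).Adj x y ↔
        (x < s.1 ∧ y < s.1 ∧ t.Adj x y) := by
      intro x y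
      show ((x < t.labs.length ∧ y < t.labs.length ∧ t.Adj x y) ∨
        (t.labs.length ≤ x ∧ t.labs.length ≤ y ∧ False)) ↔ _
      rw [h.len]
      constructor
      · rintro (h1 | ⟨_, _, h3⟩)
        · exact h1
        · exact h3.elim
      · exact Or.inl
    show ((((KExp.union t (KExp.vtx k)).Adj u v ∨
      ((t.labs ++ [k])[u]? = some k ∧ (t.labs ++ [k])[v]? = some a) ∨
      ((t.labs ++ [k])[u]? = some a ∧ (t.labs ++ [k])[v]? = some k)) ∨
      ((t.labs ++ [k])[u]? = some k ∧ (t.labs ++ [k])[v]? = some b) ∨
      ((t.labs ++ [k])[u]? = some b ∧ (t.labs ++ [k])[v]? = some k))) ↔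
      (u, v) ∈ (s.1, look s.2.1 a) :: (s.1, look s.2.1 b) :: s.2.2 ∨
      (v, u) ∈ (s.1, look s.2.1 a) :: (s.1, look s.2.1 b) :: s.2.2
    rw [hunion, labs_k h, labs_k h, labs_app h ha, labs_app h ha, labs_app h hb, labs_app h hb,
      List.mem_cons, List.mem_cons, List.mem_cons, List.mem_cons, Prod.mk.injEq, Prod.mk.injEq,
      Prod.mk.injEq, Prod.mk.injEq]
    have hE : (u < s.1 ∧ v < s.1 ∧ t.Adj u v) ↔ ((u, v) ∈ s.2.2 ∨ (v, u) ∈ s.2.2) := by
      constructor
      · rintro ⟨h1, h2, h3⟩
        exact (h.adj u v h1 h2).1 h3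
      · intro h1
        have h2 : u < s.1 ∧ v < s.1 := by
          rcases h1 with h1 | h1
          · exact ⟨(h.edge _ _ h1).1, (h.edge _ _ h1).2.1⟩
          · exact ⟨(h.edge _ _ h1).2.1, (h.edge _ _ h1).1⟩
        exact ⟨h2.1, h2.2, (h.adj u v h2.1 h2.2).2 h1⟩
    rw [hE]
    constructor
    · rintro (((h1 | h1) | h1 | h1) | h1 | h1)
      · exact Or.inl (Or.inr (Or.inr h1))
      · exact Or.inr (Or.inr (Or.inr h1))
      · exact Or.inl (Or.inl h1)
      · exact Or.inr (Or.inl ⟨h1.2, h1.1⟩)
      · exact Or.inl (Or.inr (Or.inl h1))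
      · exact Or.inr (Or.inr (Or.inl ⟨h1.2, h1.1⟩))
    · rintro ((h1 | h1 | h1) | (h1 | h1 | h1))
      · exact Or.inl (Or.inr (Or.inl h1))
      · exact Or.inr (Or.inl h1)
      · exact Or.inl (Or.inl (Or.inl h1))
      · exact Or.inl (Or.inr (Or.inr ⟨h1.2, h1.1⟩))
      · exact Or.inr (Or.inr ⟨h1.2, h1.1⟩)
      · exact Or.inl (Or.inl (Or.inr h1))

theorem steps {k : ℕ} (cs : List Cm) : ∀ (crt : List ℕ) (s : ℕ × List (ℕ × ℕ) × List (ℕ × ℕ))
    (t : KExp), Inv k crt s t → ValL k crt cs →
    ∃ crt', Inv k crt' (cs.foldl stp s) (cs.foldl (stE k) t) := by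
  induction cs with
  | nil =>
    intro crt s t h _
    exact ⟨crt, h⟩
  | cons c cs ih =>
    intro crt s t h hv
    obtain ⟨a, o⟩ := c
    cases o with
    | none =>
      have hv' : a < k ∧ ValL k (a :: crt) cs := hv
      exact ih (a :: crt) _ _ (step_none h hv'.1) hv'.2
    | some b =>
      have hv' : a ∈ crt ∧ b ∈ crt ∧ a ≠ b ∧ ValL k crt cs := hv
      exact ih crt _ _ (step_some h hv'.1 hv'.2.1) hv'.2.2.2

theorem init {k : ℕ} (hk : 0 < k) : Inv k [0] (1, [], []) (KExp.vtx 0) := by
  refine ⟨by show 0 < k + 2; omega, rfl, ?_, ?_, ?_, ?_, ?_⟩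
  · intro b hb
    rw [List.mem_singleton] at hb
    omega
  · intro b hb v
    rw [List.mem_singleton] at hb
    subst hb
    show ([0] : List ℕ)[v]? = some 0 ↔ v = 0
    cases v with
    | zero => simp
    | succ v => simp
  · intro v hv
    have hv' : ([0] : List ℕ)[v]? = some k := hv
    have h1 := List.mem_of_getElem? hv'
    rw [List.mem_singleton] at h1
    omega
  · intro u v huv
    exact absurd huv List.not_mem_nil
  · intro u v _ _
    show False ↔ _
    constructor
    · exact False.elim
    · rintro (h | h)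
      · exact absurd h List.not_mem_nil
      · exact absurd h List.not_mem_nil

theorem EXPR : S_EXPR := by
  intro k cs hk hval
  obtain ⟨crt, h⟩ := steps cs [0] (1, [], []) (KExp.vtx 0) (init hk) hval
  have h' : Inv k crt (run cs) (expOf k cs) := h
  have hlenM : (matOf cs).length = (run cs).1 := by
    unfold matOf
    rw [List.length_map, List.length_range]
  have hent : ∀ u v, u < (run cs).1 → v < (run cs).1 →
      (entry (matOf cs) u v = true ↔ (u, v) ∈ (run cs).2.2) := by
    intro u v hu hv
    unfold entry matOf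
    simp [hu, hv]
  refine ⟨h'.ok, finCongr (hlenM.trans h'.len.symm), ?_⟩
  intro u v
  have hu : u.val < (run cs).1 := lt_of_lt_of_eq u.isLt hlenM
  have hv : v.val < (run cs).1 := lt_of_lt_of_eq v.isLt hlenM
  show (u ≠ v ∧ (entry (matOf cs) u v = true ∨ entry (matOf cs) v u = true)) ↔
    (expOf k cs).Adj u.val v.val
  rw [hent u v hu hv, hent v u hv hu, h'.adj u v hu hv]
  constructor
  · exact fun h1 => h1.2
  · intro h1
    refine ⟨?_, h1⟩
    intro huv
    subst huv
    rcases h1 with h1 | h1
    · exact (h'.edge _ _ h1).2.2 rfl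
    · exact (h'.edge _ _ h1).2.2 rfl

end Pool.Agent.NPC.H348
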