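import Pool.Agent.H857.SG.Core
import Pool.Agent.H857.EF.P.S10
import Pool.Agent.H857.EF.P.S11
import Pool.Agent.H857.EF.P.S14

/-!
# The pole formula in the case without exotic lists
-/

set_option autoImplicit false

namespace Pool.Agent.H348.SGb7b

open Module Polynomial Pool.Agent.W521.Descent Pool.Agent.W521.Density Pool.Agent.W521.Count
  Pool.Agent.X297.UB Pool.Agent.H857.PB Pool.Agent.H857.PA Pool.Agent.H857.HK Pool.Agent.H857.EF
  Pool.Agent.H857.WT Pool.Agent.H857.SG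

open Pool.Agent.H249.EF (matched_map exists_lift span_pow divisorProducts_le root_powerPoly)

/-- The common argument: relations between the powers of the roots come from pairs. -/
theorem matched_pow (h11 : S11) {q g m : ℕ} (hq : 1 < q) (hm : Kills g m) {f : ℤ[X]}
    (hf : f ∈ weilPolys q g) (hex : ¬ ExL q f) {k : ℕ} (hk : 0 < k) (M : List ℂ)
    (hM : ∀ w ∈ M, ∃ z, aeval z f = 0 ∧ w = z ^ (m * k)) (n : ℤ) {N : ℕ} (hN : 0 < N)
    (hprod : M.prod ^ N = (((q : ℂ) ^ (m * k)) ^ n) ^ N) :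
    Matched (fun y z => y * z = (q : ℂ) ^ (m * k)) M := by
  obtain ⟨L, hL, rfl⟩ := exists_lift (g := fun z => z ^ (m * k)) M hM
  have hmk : 0 < m * k := Nat.mul_pos hm.1 hk
  have h1 : (L.map fun z => z ^ (m * k)).prod = L.prod ^ (m * k) := by
    have h2 : ∀ K : List ℂ, (K.map fun z => z ^ (m * k)).prod = K.prod ^ (m * k) := by
      intro K
      induction K with
      | nil => simp
      | cons a K ih => rw [List.map_cons, List.prod_cons, List.prod_cons, ih, mul_pow]
    exact h2 L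
  rw [h1] at hprod
  have h3 := h11 q f hq hf.2.2.2 hex L hL ⟨m * k * N, Nat.mul_pos hmk hN, n, by
    rw [pow_mul, hprod, ← zpow_natCast, ← zpow_natCast, ← zpow_mul, ← zpow_mul]
    congr 1
    push_cast
    ring⟩
  refine matched_map (S := fun z => aeval z f = 0) ?_ h3 hL
  intro a b ha hb hab
  have h4 := hm.2 q (by omega) f hf a b ha hb hab
  show a ^ (m * k) * b ^ (m * k) = (q : ℂ) ^ (m * k)
  rw [← mul_pow, pow_mul, h4, pow_mul]

theorem b7b' (h10 : S10) (h11 : S11) : B7b := by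
  intro q g m hq hm f hf hL G hG V _ _ _ F hF s hs n
  have hcast : ((((q ^ m : ℕ) : ℕ) : ℝ) : ℂ) = (((q ^ m : ℕ) : ℕ) : ℂ) := by push_cast; rfl
  have hq1 : (1 : ℝ) < ((q ^ m : ℕ) : ℝ) := by
    have : 1 < q ^ m := Nat.one_lt_pow hm.1.ne' hq
    exact_mod_cast this
  have hspan : Submodule.span ℂ
      {v : V | ∃ μ : ℂ, μ ∈ {z : ℂ | aeval z G = 0} ∧ F v = μ • v} = ⊤ := by
    rw [← hF]
    congr 1
    ext v
    constructor
    · rintro ⟨μ, hi, h⟩
      exact ⟨(), μ, hi, h⟩
    · rintro ⟨_, μ, hi, h⟩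
      exact ⟨μ, hi, h⟩
  have key := Pool.Agent.W521.Pole.zeta_order_ext ((q ^ m : ℕ) : ℝ) hq1 F
    {z : ℂ | aeval z G = 0} ?_ hspan s hs ?_ n
  · rw [hcast] at key
    exact key
  · intro μ hμ
    obtain ⟨w, hw, rfl⟩ := root_powerPoly hG hμ
    rw [norm_pow, ← pow_mul, mul_comm, pow_mul, hf.2.2.2 w hw]
    push_cast
    rfl
  · intro i x hx hFx
    rw [hcast] at hFx ⊢
    refine divisorProducts_le _ F i x ?_
    refine h10 V F _ hspan (((q ^ m : ℕ) : ℕ) : ℂ) i s ?_ x hx hFx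
    intro M hM _ hprod
    have h1 := matched_pow h11 hq hm hf hL one_pos M (by
      intro w hw
      obtain ⟨z, hz, h2⟩ := root_powerPoly hG (hM w hw)
      exact ⟨z, hz, by rw [h2, mul_one]⟩) (i : ℤ) hs (by
        rw [hprod, zpow_natCast, mul_one]
        push_cast
        rfl)
    rw [mul_one] at h1
    push_cast
    exact h1

theorem b7b : B7b := b7b' Pool.Agent.H356.EFs10.s10 Pool.Agent.H720.EFS.s11

end Pool.Agent.H348.SGb7b
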