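import Pool.Agent.H465.CG.Stm4
import Pool.Agent.H348.ZD.SIntA

/-! Interpolation lemma `SInt` for project CG/ZD (helper465). -/

set_option autoImplicit false

namespace Pool.Agent.H348.ZD

theorem t_int : Pool.Agent.H465.CG.SInt :=
  fun ι _ b U V θ f s hb hU hV hf hbd h1 h2 h0 hθ hs =>
    t_int_aux ι b U V θ f s hb hU hV hf hbd h1 h2 h0 hθ hs

end Pool.Agent.H348.ZD
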